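import Pool.Agent.H.MP_b87acb_an.C

open Pool.Agent.H.MP_b87acb_an

namespace Pool.Agent.Results.MP_b87acb_an.L2

theorem result (n : ℕ) : alpha (EuclideanSpace ℂ (Fin n)) ≤ ENNReal.ofReal ((n + 1) / 2) ∧
    (Odd n → alpha (EuclideanSpace ℂ (Fin n)) = ENNReal.ofReal ((n + 1) / 2)) := by
  refine ⟨up2, fun ⟨k, hk⟩ => le_antisymm up2 (le_trans (le_of_eq ?_) (low2 (k := k) (by omega)))⟩
  subst hk
  push_cast
  rw [show (2 * k + 1 - k : ℝ) = k + 1 by ring, Real.sqrt_mul_self (by positivity)]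
  congr 1; ring

end Pool.Agent.Results.MP_b87acb_an.L2
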