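import Pool.Agent.H.MP_b87acb_an.C

open Filter Topology Pool.Agent.H.MP_b87acb_an

namespace Pool.Agent.Results.MP_b87acb_an.Q1

theorem result : Tendsto (fun n : ℕ => alpha (Fin n → ℂ) / ENNReal.ofReal √n) atTop
    (𝓝 (ENNReal.ofReal (1 / √2))) := by
  have h : Tendsto (fun n : ℕ => √(1 / (2 - (n : ℝ)⁻¹))) atTop (𝓝 (1 / √2)) := by
    have := ((tendsto_const_nhds (x := (1 : ℝ))).div ((tendsto_const_nhds (x := (2 : ℝ))).sub
      tendsto_inv_atTop_nhds_zero_nat) (by norm_num)).sqrt
    simpa using this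
  refine tendsto_of_tendsto_of_tendsto_of_le_of_le' tendsto_const_nhds (ENNReal.tendsto_ofReal h) ?_ ?_
  all_goals
    filter_upwards [eventually_gt_atTop 0] with n hn
    have n1 : (1 : ℝ) ≤ n := by exact_mod_cast hn
    have n0 : 0 < √n := by positivity
  · refine le_trans (le_of_eq ?_) (ENNReal.div_le_div_right (lowi hn) _)
    rw [← ENNReal.ofReal_div_of_pos n0, Real.sqrt_div' _ zero_le_two]
    congr 1; field_simp
  · refine (ENNReal.div_le_div_right (upi hn) _).trans (le_of_eq ?_)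
    rw [← ENNReal.ofReal_div_of_pos n0, show 1 / (2 - (n : ℝ)⁻¹) = n / (2 * n - 1) by field_simp,
      Real.sqrt_div' _ (by linarith), div_right_comm, Real.div_sqrt]

end Pool.Agent.Results.MP_b87acb_an.Q1
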